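import Pool.Agent.W4.QD.Stms

set_option autoImplicit false

/-! QD-KROOT: the number of `k`-th roots modulo a large prime. -/

namespace Pool.Agent.W885.QD

open NumberField Pool.Agent.W4.QD UniqueFactorizationMonoid

variable {K : Type} [Field K] [NumberField K]

/-- a prime whose square divides `p` divides the different -/
lemma sq_dvd_diff {p : ℕ} (hp : p.Prime) (P : Ideal (𝓞 K))
    (h : P ^ 2 ∣ Ideal.span {(p : 𝓞 K)}) : P ∣ differentIdeal ℤ (𝓞 K) := by
  have hp' : Prime (p : ℤ) := Nat.prime_iff_prime_int.mp hp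
  have hne : Ideal.span {(p : ℤ)} ≠ ⊥ := by
    rw [Ne, Ideal.span_singleton_eq_bot]
    exact hp'.ne_zero
  have hprime : (Ideal.span {(p : ℤ)}).IsPrime :=
    (Ideal.span_singleton_prime hp'.ne_zero).mpr hp'
  have hmax : (Ideal.span {(p : ℤ)}).IsMaximal := hprime.isMaximal hne
  have hmap : (Ideal.span {(p : ℤ)}).map (algebraMap ℤ (𝓞 K)) = Ideal.span {(p : 𝓞 K)} := by
    rw [Ideal.map_span, Set.image_singleton]
    simp
  have h1 := pow_sub_one_dvd_differentIdeal (A := ℤ) (B := 𝓞 K) P 2 hne (by rw [hmap]; exact h)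
  simpa using h1

/-- for large primes `p` the ideal `(p)` is squarefree -/
lemma sqf {p : ℕ} (hp : p.Prime) (hP0 : Ideal.absNorm (differentIdeal ℤ (𝓞 K)) < p) :
    Squarefree (Ideal.span {(p : 𝓞 K)}) := by
  have hp0 : (p : 𝓞 K) ≠ 0 := by exact_mod_cast hp.ne_zero
  have hI0 : Ideal.span {(p : 𝓞 K)} ≠ 0 := by
    rw [Ne, Ideal.zero_eq_bot, Ideal.span_singleton_eq_bot]
    exact hp0
  rw [squarefree_iff_irreducible_sq_not_dvd_of_ne_zero hI0]
  intro P hP hdvd
  have hPp : Prime P := hP.prime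
  have h1 : P ∣ differentIdeal ℤ (𝓞 K) := sq_dvd_diff hp P (by rw [sq]; exact hdvd)
  have h2 : Ideal.absNorm P ∣ Ideal.absNorm (differentIdeal ℤ (𝓞 K)) := map_dvd _ h1
  have h3 : Ideal.absNorm P ∣ Ideal.absNorm (Ideal.span {(p : 𝓞 K)}) :=
    map_dvd _ ((Dvd.intro _ rfl : P ∣ P * P).trans hdvd)
  rw [Ideal.absNorm_span_singleton] at h3
  have h4 : Algebra.norm ℤ (p : 𝓞 K) = (p : ℤ) ^ Module.finrank ℤ (𝓞 K) := by
    have := Algebra.norm_algebraMap (S := 𝓞 K) (p : ℤ)
    simpa using this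
  rw [h4, Int.natAbs_pow, Int.natAbs_natCast] at h3
  obtain ⟨j, -, hj⟩ := (Nat.dvd_prime_pow hp).mp h3
  have hj0 : j ≠ 0 := by
    rintro rfl
    rw [pow_zero, Ideal.absNorm_eq_one_iff] at hj
    apply hPp.not_isUnit
    rw [hj]
    exact Ideal.isUnit_iff.mpr rfl
  have h5 : p ∣ Ideal.absNorm P := by rw [hj]; exact dvd_pow_self p hj0
  have h6 : p ∣ Ideal.absNorm (differentIdeal ℤ (𝓞 K)) := h5.trans h2
  have h7 : Ideal.absNorm (differentIdeal ℤ (𝓞 K)) ≠ 0 := by
    rw [Ne, Ideal.absNorm_eq_zero_iff]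
    exact differentIdeal_ne_bot
  have := Nat.le_of_dvd (Nat.pos_of_ne_zero h7) h6
  omega

open Classical in
theorem t_KROOT : S_KROOT := by
  intro K _ _
  refine ⟨Ideal.absNorm (differentIdeal ℤ (𝓞 K)), ?_⟩
  intro p hp hP0 k hk w s hs hinj
  have hp0 : (p : 𝓞 K) ≠ 0 := by exact_mod_cast hp.ne_zero
  set I : Ideal (𝓞 K) := Ideal.span {(p : 𝓞 K)} with hI
  have hI0 : I ≠ 0 := by
    rw [Ne, Ideal.zero_eq_bot, Ideal.span_singleton_eq_bot]
    exact hp0
  have hsq : Squarefree I := sqf hp hP0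
  set S : Finset (Ideal (𝓞 K)) := (normalizedFactors I).toFinset with hS
  have hnd : (normalizedFactors I).Nodup := (squarefree_iff_nodup_normalizedFactors hI0).mp hsq
  have hprimeS : ∀ P ∈ S, Prime P := by
    intro P hP
    rw [hS, Multiset.mem_toFinset] at hP
    exact prime_of_normalized_factor P hP
  have hprod : ∏ P ∈ S, P = I := by
    have h1 : ∏ P ∈ S, P = (normalizedFactors I).prod := by
      rw [hS, Finset.prod, Multiset.toFinset_val, hnd.dedup, Multiset.map_id']
    rw [h1]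
    exact associated_iff_eq.mp (prod_normalizedFactors hI0)
  -- membership in `I`
  have hmemI : ∀ x : 𝓞 K, (∀ P ∈ S, x ∈ P) → (p : 𝓞 K) ∣ x := by
    intro x hx
    rw [← Ideal.span_singleton_le_span_singleton, ← Ideal.dvd_iff_le]
    rw [← hI, ← hprod]
    apply Finset.prod_primes_dvd
    · exact hprimeS
    · intro P hP
      rw [Ideal.dvd_iff_le, Ideal.span_singleton_le_iff_mem]
      exact hx P hP
  -- number of primes
  have hcard : S.card ≤ Module.finrank ℚ K := by
    have h1 : (∏ P ∈ S, Ideal.absNorm P) = p ^ Module.finrank ℚ K := by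
      rw [← map_prod, hprod, hI, Ideal.absNorm_span_singleton]
      have h4 : Algebra.norm ℤ (p : 𝓞 K) = (p : ℤ) ^ Module.finrank ℤ (𝓞 K) := by
        have := Algebra.norm_algebraMap (S := 𝓞 K) (p : ℤ)
        simpa using this
      rw [h4, Int.natAbs_pow, Int.natAbs_natCast, RingOfIntegers.rank]
    have h2 : ∀ P ∈ S, p ≤ Ideal.absNorm P := by
      intro P hP
      have h3 : Ideal.absNorm P ∣ p ^ Module.finrank ℚ K := by
        rw [← h1]
        exact Finset.dvd_prod_of_mem _ hP
      obtain ⟨j, -, hj⟩ := (Nat.dvd_prime_pow hp).mp h3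
      have hj0 : j ≠ 0 := by
        rintro rfl
        rw [pow_zero, Ideal.absNorm_eq_one_iff] at hj
        apply (hprimeS P hP).not_isUnit
        rw [hj]
        exact Ideal.isUnit_iff.mpr rfl
      rw [hj]
      exact Nat.le_self_pow hj0 p
    have h3 : p ^ S.card ≤ p ^ Module.finrank ℚ K := by
      rw [← h1]
      calc p ^ S.card = ∏ P ∈ S, p := by rw [Finset.prod_const]
        _ ≤ _ := Finset.prod_le_prod' h2
    exact (Nat.pow_le_pow_iff_right hp.one_lt).mp h3
  -- the map to the product of the residue fields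
  have hfield : ∀ P ∈ S, P.IsPrime := fun P hP => Ideal.isPrime_of_prime (hprimeS P hP)
  have hpP : ∀ P ∈ S, (p : 𝓞 K) ∈ P := by
    intro P hP
    have h1 : P ∣ I := by rw [← hprod]; exact Finset.dvd_prod_of_mem _ hP
    rw [Ideal.dvd_iff_le, hI, Ideal.span_singleton_le_iff_mem] at h1
    exact h1
  let RT : (P : Ideal (𝓞 K)) → Finset (𝓞 K ⧸ P) := fun P =>
    s.image (Ideal.Quotient.mk P)
  have hRT : ∀ P ∈ S, (RT P).card ≤ k := by
    intro P hP
    have := hfield P hP
    have hdom : IsDomain (𝓞 K ⧸ P) := Ideal.Quotient.isDomain P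
    set f : Polynomial (𝓞 K ⧸ P) := Polynomial.X ^ k - Polynomial.C (Ideal.Quotient.mk P w)
      with hf
    have hf0 : f ≠ 0 := Polynomial.X_pow_sub_C_ne_zero (by omega) _
    have hdeg : f.natDegree = k := Polynomial.natDegree_X_pow_sub_C
    have hsub : RT P ⊆ f.roots.toFinset := by
      intro y hy
      rw [Finset.mem_image] at hy
      obtain ⟨x, hx, rfl⟩ := hy
      rw [Multiset.mem_toFinset, Polynomial.mem_roots hf0, Polynomial.IsRoot.def]
      rw [hf, Polynomial.eval_sub, Polynomial.eval_pow, Polynomial.eval_X, Polynomial.eval_C,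
        ← map_pow, ← map_sub, Ideal.Quotient.eq_zero_iff_mem]
      obtain ⟨c, hc⟩ := hs x hx
      rw [hc]
      exact P.mul_mem_right _ (hpP P hP)
    calc (RT P).card ≤ f.roots.toFinset.card := Finset.card_le_card hsub
      _ ≤ Multiset.card f.roots := Multiset.toFinset_card_le _
      _ ≤ f.natDegree := Polynomial.card_roots' f
      _ = k := hdeg
  have hmain : s.card ≤ (S.pi RT).card := by
    apply Finset.card_le_card_of_injOn (fun x => fun P _ => Ideal.Quotient.mk P x)
    · intro x hx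
      rw [Finset.mem_coe, Finset.mem_pi]
      intro P _
      exact Finset.mem_image_of_mem _ hx
    · intro x hx y hy hxy
      apply hinj x hx y hy
      apply hmemI
      intro P hP
      have h1 := congrFun (congrFun hxy P) hP
      exact (Ideal.Quotient.mk_eq_mk_iff_sub_mem x y).mp h1
  calc s.card ≤ (S.pi RT).card := hmain
    _ = ∏ P ∈ S, (RT P).card := Finset.card_pi _ _
    _ ≤ ∏ _P ∈ S, k := Finset.prod_le_prod' hRT
    _ = k ^ S.card := by rw [Finset.prod_const]
    _ ≤ k ^ Module.finrank ℚ K := Nat.pow_le_pow_right hk hcard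

end Pool.Agent.W885.QD
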